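import Pool.Agent.Helper25_BES.Sfn
import Pool.Agent.Helper93_BEO.ARO
import Pool.Agent.Helper5_BES.GSO
import Pool.Agent.Helper27_BES.HCT
import Pool.Agent.Helper21_BES.HPO
import Pool.Agent.Helper89_BES.SDO
import Pool.Agent.Helper77_BES.HSM
import Pool.Agent.Helper97_BES.HWK
import Pool.Agent.Helper3_BES.PWK
import Pool.Agent.Helper62_BES.GCF
import Pool.Agent.Helper5_BES.NRI
import Pool.Agent.Helper15_BES.SCO
import Pool.Agent.Helper6_BES.ORS
import Pool.Agent.Helper60_BES.RCS
import Pool.Agent.Helper69_BES.DNS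
import Pool.Agent.Helper60_BES.SPS
import Pool.Agent.Helper43_BES.PHS
import Pool.Agent.Helper53_BES.SEF

/-!
# Squad BES: all rows together (sectors of opening `2π/(2m+1)` and the slit disc)
-/

set_option autoImplicit false

namespace Pool.Agent.BES.H25

open Pool.Agent.BES

theorem pwkA : PwkStmt := H3.pwk H77.hsm H97.hwk
theorem scoA : ScoStmt := H15.sco H27.hct H21.hpo H89.sdo H77.hsm H62.gcf H5.nri
theorem orsA : OrsStmt := H6.ors H27.hct H89.sdo pwkA scoA
theorem rcsA : RcsStmt := H60.rcs H5.gso orsA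
theorem dnsA : DnsStmt := H69.dns H27.hct H21.hpo H89.sdo
theorem spsA : SpsStmt := H60.sps H5.gso rcsA dnsA
theorem phsA : PhsStmt := H43.phs H5.gso H27.hct H89.sdo pwkA scoA

/-- Eigenvalues of the sectors without resonances in the symmetric class. -/
theorem sefA : SefStmt := H53.sef Pool.Agent.BEO.H93.aro spsA phsA

/-- The sharp rate for sectors and the slit disc, from the theorem `F_G` of squad BEG. -/
theorem sfnU (fgg : Pool.Agent.BEG.FggStmt) : SfnStmt := sfnA fgg H89.sdo sefA

end Pool.Agent.BES.H25
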