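import Pool.Agent.BES.Stmts
import Pool.Agent.BEG.Stmts

/-!
# Squad BES: the sharp rate on sectors and the slit disc, from `FggStmt` (squad BEG) and `SefStmt`.
-/

namespace Pool.Agent.BES

open Set Filter Topology MeasureTheory
open scoped InnerProductSpace ENNReal
open Pool.Agent.BE01 Pool.Agent.BEH

noncomputable section

/-- SFN: the sharp rate for even powers on every sector of opening `2π/(2m+1)` and on the slit disc
(`m = 0`). -/
def SfnStmt : Prop := ∀ (m : ℕ) (R : ℝ) (p : ℕ) (a : ℝ), 0 < R → 1 ≤ p → 0 < a →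
  Rt (Sec m R) a ((2 * p : ℕ) : ℝ)

namespace H25

/-- The reflection as a linear isometry equivalence. -/
def sgE : En 2 ≃ₗᵢ[ℝ] En 2 where
  toFun := sg
  invFun := sg
  left_inv x := by ext i; fin_cases i <;> simp [sg]
  right_inv x := by ext i; fin_cases i <;> simp [sg]
  map_add' x y := by ext i; fin_cases i <;> simp [sg]; ring
  map_smul' c x := by ext i; fin_cases i <;> simp [sg]
  norm_map' x := by
    simp [EuclideanSpace.norm_eq, sg, Fin.sum_univ_two]

theorem sgE_apply (x : En 2) : sgE x = sg x := rfl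

theorem inv_iff {Ω : Set (En 2)} (u : Lp ℝ 2 (mu Ω)) :
    Pool.Agent.BEG.Inv Ω {((sgE, 0) : (En 2 ≃ₗᵢ[ℝ] En 2) × En 2)} u ↔ Sy u := by
  unfold Pool.Agent.BEG.Inv Sy
  constructor
  · intro h
    have := h _ (Set.mem_singleton _)
    simpa [Pool.Agent.BEG.mv, sgE_apply] using this
  · rintro h g hg
    rw [Set.mem_singleton_iff] at hg
    subst hg
    simpa [Pool.Agent.BEG.mv, sgE_apply] using h

theorem syms {Ω : Set (En 2)} (h : ∀ x, sg x ∈ Ω ↔ x ∈ Ω) :
    Pool.Agent.BEG.Syms Ω {((sgE, 0) : (En 2 ≃ₗᵢ[ℝ] En 2) × En 2)} := by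
  intro g hg
  rw [Set.mem_singleton_iff] at hg
  subst hg
  ext y
  constructor
  · rintro ⟨x, hx, rfl⟩
    simp only [Pool.Agent.BEG.mv, add_zero, sgE_apply]
    exact (h x).2 hx
  · intro hy
    refine ⟨sg y, (h y).2 hy, ?_⟩
    simp only [Pool.Agent.BEG.mv, add_zero, sgE_apply]
    exact sgE.left_inv y

theorem sfnA (fgg : Pool.Agent.BEG.FggStmt) (sdo : SdoStmt) (sef : SefStmt) : SfnStmt := by
  intro m R p a hR hp ha
  obtain ⟨l, φ, hφ0, hφe, hφs, hn⟩ := sef m R hR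
  obtain ⟨hD, -, hsg⟩ := sdo m R hR
  refine fgg 2 (Sec m R) {((sgE, 0) : (En 2 ≃ₗᵢ[ℝ] En 2) × En 2)} p a l φ le_rfl hD (syms hsg) hp ha
    ((inv_iff φ).2 hφs) hφ0 hφe ?_
  refine (Set.finite_singleton 1).subset ?_
  rintro n ⟨hodd, u, hu, hu0, hue⟩
  rw [Set.mem_singleton_iff]
  by_contra hne
  have h2 : 2 ≤ n := by
    rcases hodd with ⟨k, rfl⟩
    omega
  exact hu0 (hn n h2 u hue ((inv_iff u).1 hu))

end H25

end

end Pool.Agent.BES
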